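import Pool.Agent.Helper80.REC.LBD

/-!
# Reciprocity, module SND: the second inequality
-/

set_option autoImplicit false

open scoped Classical
open NumberField MeasureTheory Filter Topology

namespace REC

open Pool.Agent.Helper13.ZL (Pl q HasMean)
open MU (Gal Zb Over CongPow)

namespace H80

theorem index_ne_zero {F : Type} [Field F] [NumberField F] {Y : Subgroup (Gal F)}
    (h : IsOpen (Y : Set (Gal F))) : Y.index ≠ 0 := by
  have h1 : Finite (Gal F ⧸ Y) := Subgroup.quotient_finite_of_isOpen Y h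
  have h2 : Y.FiniteIndex := Subgroup.finiteIndex_of_finite_quotient
  exact h2.index_ne_zero

/-- from a logarithmic inequality to an inequality -/
theorem le_one_of_log {a C : ℝ} (h : ∀ s : ℝ, 1 < s → s ≤ 2 →
    a * Real.log (1 / (s - 1)) ≤ Real.log (1 / (s - 1)) + C) : a ≤ 1 := by
  by_contra hcon
  have ha : 0 < a - 1 := by linarith [not_le.1 hcon]
  have hC : 0 ≤ |C| := abs_nonneg C
  set t : ℝ := (|C| + 1) / (a - 1) with ht
  have ht0 : 0 < t := div_pos (by linarith) ha
  have hs := h (1 + Real.exp (-t)) (by linarith [Real.exp_pos (-t)]) (by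
    have : Real.exp (-t) ≤ 1 := Real.exp_le_one_iff.2 (by linarith)
    linarith)
  have h1 : Real.log (1 / (1 + Real.exp (-t) - 1)) = t := by
    rw [add_sub_cancel_left, one_div, ← Real.exp_neg, neg_neg, Real.log_exp]
  rw [h1] at hs
  have h2 : (a - 1) * t = |C| + 1 := by
    rw [ht]
    field_simp
  have h3 := le_abs_self C
  nlinarith

end H80

/-- SND -/
theorem st_SND (hPZ : Pool.Agent.Helper13.ZL.ST_PZ) (hLBD : ST_LBD) (hSPY : ST_SPY)
    (hXSG : ST_XSG) : ST_SND := by
  intro F _ _ Y hY hYo B N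
  obtain ⟨H, hH, hfin⟩ := hXSG F Y B N
  have : Fintype H := Fintype.ofFinite H
  have hidx := H80.index_ne_zero hYo
  have hcard : (X Y B N).ncard = Fintype.card H := by
    rw [← hH, ← Nat.card_coe_set_eq, ← Nat.card_eq_fintype_card]
    rfl
  rw [hcard]
  -- notation
  have hmem : ∀ f : H, (f : Pl F → ℂˣ) ∈ X Y B N := fun f => by
    rw [← hH]
    exact f.2
  have hnorm : ∀ (f : H) (v : Pl F), ‖((f : Pl F → ℂˣ) v : ℂ)‖ = 1 := by
    intro f v
    refine H80.norm_one_of_pow (k := Fintype.card H) Fintype.card_ne_zero ?_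
    have h1 : f ^ Fintype.card H = 1 := pow_card_eq_one
    have h2 : ((f ^ Fintype.card H : H) : Pl F → ℂˣ) v = 1 := by
      rw [h1]
      rfl
    exact h2
  obtain ⟨C₁, hC₁⟩ := hPZ F
  obtain ⟨C₂, hC₂⟩ := hSPY F Y hY hYo
  have hsumq : ∀ s : ℝ, 1 < s → s ≤ 2 → Summable (fun v : Pl F => (q v : ℝ) ^ (-s)) := by
    intro s hs hs2
    have := (hC₁ s hs hs2).1
    simpa using this
  have hq0 : ∀ (v : Pl F) (s : ℝ), 0 ≤ (q v : ℝ) ^ (-s) := fun v s =>
    Real.rpow_nonneg (Nat.cast_nonneg _) _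
  have hq1 : ∀ (v : Pl F) (s : ℝ), 0 ≤ s → (q v : ℝ) ^ (-s) ≤ 1 := by
    intro v s hs
    have h1 : (1 : ℝ) ≤ (q v : ℝ) := by
      have h2 : 0 < q v := Nat.pos_of_ne_zero (by
        unfold q
        rw [Ne, Ideal.absNorm_eq_zero_iff]
        exact v.ne_bot)
      exact_mod_cast h2
    exact Real.rpow_le_one_of_one_le_of_nonpos h1 (by linarith)
  have hsumf : ∀ (f : H) (s : ℝ), 1 < s → s ≤ 2 →
      Summable (fun v : Pl F => ((f : Pl F → ℂˣ) v : ℂ).re * (q v : ℝ) ^ (-s)) := by
    intro f s hs hs2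
    refine Summable.of_norm_bounded (hsumq s hs hs2) fun v => ?_
    rw [norm_mul, Real.norm_eq_abs, Real.norm_eq_abs, abs_of_nonneg (hq0 v s)]
    have h1 : |((f : Pl F → ℂˣ) v : ℂ).re| ≤ 1 := by
      refine (Complex.abs_re_le_norm _).trans ?_
      rw [hnorm f v]
    exact mul_le_of_le_one_left (hq0 v s) h1
  -- the upper bounds
  have hup : ∀ f : H, ∃ C : ℝ, ∀ s : ℝ, 1 < s → s ≤ 2 →
      ∑' v : Pl F, ((f : Pl F → ℂˣ) v : ℂ).re * (q v : ℝ) ^ (-s) ≤
        (if f = 1 then 1 else 0) * Real.log (1 / (s - 1)) + C := by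
    intro f
    by_cases hf : f = 1
    · refine ⟨C₁, fun s hs hs2 => ?_⟩
      rw [if_pos hf]
      have h1 := (abs_le.1 (hC₁ s hs hs2).2).2
      have h2 : ∑' v : Pl F, ((f : Pl F → ℂˣ) v : ℂ).re * (q v : ℝ) ^ (-s) =
          ∑' v : Pl F, (1 : ℝ) * (q v : ℝ) ^ (-s) := by
        refine tsum_congr fun v => ?_
        rw [hf]
        simp
      rw [h2]
      linarith
    · obtain ⟨C, hC⟩ := hLBD F B N f (hmem f).1 (fun h => hf (Subtype.ext h))
      refine ⟨C, fun s hs hs2 => ?_⟩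
      rw [if_neg hf, zero_mul, zero_add]
      exact hC s hs hs2
  choose D hD using hup
  -- orthogonality
  have horth : ∀ v : Pl F, 0 ≤ ∑ f : H, ((f : Pl F → ℂˣ) v : ℂ).re := by
    intro v
    let e : H →* ℂˣ := (Pi.evalMonoidHom (fun _ : Pl F => ℂˣ) v).comp H.subtype
    have he : ∀ f : H, e f = (f : Pl F → ℂˣ) v := fun f => rfl
    by_cases h : ∃ g : H, e g ≠ 1
    · obtain ⟨g, hg⟩ := h
      have h1 := H80.sum_char e hg
      have h2 := congrArg Complex.re h1
      rw [Complex.re_sum, Complex.zero_re] at h2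
      exact h2.ge
    · refine Finset.sum_nonneg fun f _ => ?_
      have h1 : e f = 1 := by
        by_contra h2
        exact h ⟨f, h2⟩
      rw [← he f, h1]
      simp
  have hfull : ∀ v : Pl F, v ∉ B → SplY Y v →
      ∑ f : H, ((f : Pl F → ℂˣ) v : ℂ).re = Fintype.card H := by
    rintro v hv ⟨𝔓, h𝔓, -, σ, hσY, hσ⟩
    have h1 : ∀ f : H, ((f : Pl F → ℂˣ) v : ℂ).re = 1 := by
      intro f
      have h2 := (hmem f).2 v hv 𝔓 h𝔓 1 σ (by rw [pow_one]; exact hσ) hσY
      rw [pow_one] at h2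
      rw [h2]
      simp
    rw [Finset.sum_congr rfl fun f _ => h1 f]
    simp
  -- the inequality
  have key : (Fintype.card H : ℝ) / Y.index ≤ 1 := by
    refine H80.le_one_of_log (C := (∑ f : H, D f) + Fintype.card H * (|C₂| + B.card))
      fun s hs hs2 => ?_
    have h1 : ∑ f : H, ∑' v : Pl F, ((f : Pl F → ℂˣ) v : ℂ).re * (q v : ℝ) ^ (-s) ≤
        Real.log (1 / (s - 1)) + ∑ f : H, D f := by
      have h2 : ∑ f : H, ((if f = 1 then 1 else 0) * Real.log (1 / (s - 1)) + D f) =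
          Real.log (1 / (s - 1)) + ∑ f : H, D f := by
        rw [Finset.sum_add_distrib, ← Finset.sum_mul, Finset.sum_ite_eq', if_pos (Finset.mem_univ _),
          one_mul]
      rw [← h2]
      exact Finset.sum_le_sum fun f _ => hD f s hs hs2
    have h3 : ∑ f : H, ∑' v : Pl F, ((f : Pl F → ℂˣ) v : ℂ).re * (q v : ℝ) ^ (-s) =
        ∑' v : Pl F, (∑ f : H, ((f : Pl F → ℂˣ) v : ℂ).re) * (q v : ℝ) ^ (-s) := by
      rw [← Summable.tsum_finsetSum fun f _ => hsumf f s hs hs2]
      refine tsum_congr fun v => ?_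
      rw [Finset.sum_mul]
    have hsumS : Summable (fun v : Pl F =>
        (∑ f : H, ((f : Pl F → ℂˣ) v : ℂ).re) * (q v : ℝ) ^ (-s)) := by
      have := summable_sum (s := Finset.univ) fun (f : H) (_ : f ∈ Finset.univ) =>
        hsumf f s hs hs2
      refine this.congr fun v => ?_
      rw [Finset.sum_mul]
    have h4 := hC₂ s hs hs2
    have hsumB : Summable (fun v : Pl F => if v ∈ B then (1 : ℝ) else 0) :=
      summable_of_ne_finset_zero (s := B) fun v hv => if_neg hv
    have htB : ∑' v : Pl F, (if v ∈ B then (1 : ℝ) else 0) = B.card := by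
      rw [tsum_eq_sum (s := B) fun v hv => if_neg hv, Finset.sum_congr rfl
        fun v hv => if_pos hv]
      simp
    have h5 : ∀ v : Pl F, (Fintype.card H : ℝ) *
        ((if SplY Y v then (1 : ℝ) else 0) * (q v : ℝ) ^ (-s) - (if v ∈ B then (1 : ℝ) else 0)) ≤
        (∑ f : H, ((f : Pl F → ℂˣ) v : ℂ).re) * (q v : ℝ) ^ (-s) := by
      intro v
      have hc : (0 : ℝ) ≤ Fintype.card H := Nat.cast_nonneg _
      by_cases hv : v ∈ B
      · rw [if_pos hv]
        refine le_trans ?_ (mul_nonneg (horth v) (hq0 v s))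
        refine mul_nonpos_of_nonneg_of_nonpos hc ?_
        split_ifs
        · linarith [hq1 v s (by linarith)]
        · linarith
      · rw [if_neg hv, sub_zero]
        split_ifs with hs'
        · rw [hfull v hv hs', one_mul]
        · rw [zero_mul, mul_zero]
          exact mul_nonneg (horth v) (hq0 v s)
    have h6 := Summable.tsum_le_tsum h5 ((h4.1.sub hsumB).mul_left _) hsumS
    rw [tsum_mul_left, h4.1.tsum_sub hsumB, htB] at h6
    have h7 := (abs_le.1 h4.2).1
    have h8 : -|C₂| ≤ -C₂ := neg_le_neg (le_abs_self C₂)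
    have hc : (0 : ℝ) ≤ Fintype.card H := Nat.cast_nonneg _
    have h9 : (Fintype.card H : ℝ) * (1 / Y.index * Real.log (1 / (s - 1)) - |C₂| - B.card) ≤
        (Fintype.card H : ℝ) *
          (∑' v : Pl F, (if SplY Y v then (1 : ℝ) else 0) * (q v : ℝ) ^ (-s) - B.card) :=
      mul_le_mul_of_nonneg_left (by linarith) hc
    have h10 : (Fintype.card H : ℝ) / Y.index * Real.log (1 / (s - 1)) =
        (Fintype.card H : ℝ) * (1 / Y.index * Real.log (1 / (s - 1))) := by
      ring
    rw [h3] at h1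
    rw [h10]
    nlinarith
  have hi : (0 : ℝ) < Y.index := by exact_mod_cast Nat.pos_of_ne_zero hidx
  rw [div_le_one hi] at key
  exact_mod_cast key

end REC
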