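import Pool.Agent.Helper57.REC.Stmts1

/-!
# Reciprocity, module LBD: no pole for nontrivial ray characters
-/

set_option autoImplicit false

open scoped Classical
open NumberField MeasureTheory

namespace REC

open Pool.Agent.Helper13.ZL (Pl q HasMean)

namespace H80

variable {F : Type} [Field F] [NumberField F]

theorem isRay_one {B : Finset (Pl F)} {f : Pl F → ℂˣ} (h : IsRay B 0 f) : IsRay B 1 f :=
  ⟨h.1, fun x hx => h.2 x ⟨hx.1, hx.2.1, fun v _ => by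
    rw [pow_zero, Ideal.one_eq_top]
    exact Submodule.mem_top⟩⟩

theorem cop_place {B : Finset (Pl F)} {v : Pl F} (hv : v ∉ B) : Cop B v.asIdeal := by
  refine ⟨v.ne_bot, fun w hw hle => hv ?_⟩
  have h1 : v.asIdeal = w.asIdeal := v.isMaximal.eq_of_le w.isPrime.ne_top hle
  have h2 : v = w := IsDedekindDomain.HeightOneSpectrum.ext h1
  rw [h2]
  exact hw

theorem norm_one_of_pow {z : ℂˣ} {k : ℕ} (hk : k ≠ 0) (h : z ^ k = 1) : ‖(z : ℂ)‖ = 1 := by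
  have h1 : (z : ℂ) ^ k = 1 := by
    rw [← Units.val_pow_eq_pow_val, h, Units.val_one]
  exact Complex.norm_eq_one_of_pow_eq_one h1 hk

/-- the sum of a nontrivial character -/
theorem sum_char {G : Type} [CommGroup G] [Fintype G] (ψ : G →* ℂˣ) {g : G} (hg : ψ g ≠ 1) :
    ∑ c : G, ((ψ c : ℂˣ) : ℂ) = 0 := by
  have h1 : ((ψ g : ℂˣ) : ℂ) * ∑ c : G, ((ψ c : ℂˣ) : ℂ) = ∑ c : G, ((ψ c : ℂˣ) : ℂ) := by
    rw [Finset.mul_sum]
    refine Fintype.sum_equiv (Equiv.mulLeft g) _ _ fun c => ?_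
    rw [Equiv.coe_mulLeft, map_mul, Units.val_mul]
  have h2 : (((ψ g : ℂˣ) : ℂ) - 1) * ∑ c : G, ((ψ c : ℂˣ) : ℂ) = 0 := by
    rw [sub_mul, h1, one_mul, sub_self]
  rcases mul_eq_zero.1 h2 with h3 | h3
  · exfalso
    apply hg
    apply Units.ext
    rw [Units.val_one]
    exact sub_eq_zero.1 h3
  · exact h3

theorem char_pow {G : Type} [CommGroup G] [Finite G] (ψ : G →* ℂˣ) (g : G) :
    ‖((ψ g : ℂˣ) : ℂ)‖ = 1 := by
  refine norm_one_of_pow (k := Nat.card G) Nat.card_pos.ne' ?_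
  rw [← map_pow, pow_card_eq_one', map_one]

theorem lbd_pos (hRCG : ST_RCG) (hRDU : ST_RDU) (hPZC : ST_PZC) (hEUL : ST_EUL) (hEV : ST_EV)
    (B : Finset (Pl F)) (N : ℕ) (hN : 0 < N) (f : Pl F → ℂˣ) (hf : IsRay B N f) (hf1 : f ≠ 1) :
    ∃ C : ℝ, ∀ s : ℝ, 1 < s → s ≤ 2 →
      ∑' v : Pl F, (f v : ℂ).re * (q v : ℝ) ^ (-s) ≤ C := by
  obtain ⟨G, iG, fG, cl, hcl⟩ := hRCG F B N hN
  have : Fintype G := Fintype.ofFinite G
  obtain ⟨ψ, hψ⟩ := (hRDU F B N hN G cl hcl).2 f hf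
  obtain ⟨-, -, hev, -⟩ := hEV F ℂˣ
  have hfv : ∀ v : Pl F, v ∉ B → f v = ψ (cl v.asIdeal) := by
    intro v hv
    rw [← hev f v]
    exact hψ _ (cop_place hv)
  have hnorm : ∀ v, ‖(f v : ℂ)‖ = 1 := by
    intro v
    by_cases hv : v ∈ B
    · rw [hf.1 v hv, Units.val_one, norm_one]
    · rw [hfv v hv]
      exact char_pow ψ _
  -- the character is not trivial
  obtain ⟨g, hg⟩ : ∃ g, ψ g ≠ 1 := by
    by_contra hcon
    apply hf1
    funext v
    by_cases hv : v ∈ B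
    · exact hf.1 v hv
    · rw [hfv v hv]
      by_contra h1
      exact hcon ⟨_, h1⟩
  obtain ⟨C₁, hC₁⟩ := hEUL F B f hnorm
  obtain ⟨J, C₂, hC₂⟩ := hPZC F B N hN G cl hcl
  have hC₂0 : 0 ≤ C₂ := (abs_nonneg _).trans (hC₂ 1 2 (by norm_num) le_rfl).2
  refine ⟨Real.log (Fintype.card G * C₂ + 1) + C₁, fun s hs hs2 => ?_⟩
  obtain ⟨hsum, hne, hle⟩ := hC₁ s hs hs2
  refine hle.trans (add_le_add_left ?_ C₁)
  refine Real.log_le_log (norm_pos_iff.2 hne) ?_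
  -- the sum over the classes
  have hterm : ∀ I : Ideal (𝓞 F), lt B f s I =
      ∑ c : G, ((ψ c : ℂˣ) : ℂ) * ((zc B cl c s I : ℝ) : ℂ) := by
    intro I
    unfold lt
    split_ifs with hI
    · rw [Finset.sum_eq_single (cl I)]
      · rw [hψ I hI]
        unfold zc
        rw [if_pos ⟨hI, rfl⟩]
      · intro c _ hc
        unfold zc
        rw [if_neg (fun h => hc h.2.symm), Complex.ofReal_zero, mul_zero]
      · intro h
        exact absurd (Finset.mem_univ _) h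
    · symm
      refine Finset.sum_eq_zero fun c _ => ?_
      unfold zc
      rw [if_neg (fun h => hI h.1), Complex.ofReal_zero, mul_zero]
  have hs' : ∀ c : G, HasSum (fun I => ((ψ c : ℂˣ) : ℂ) * ((zc B cl c s I : ℝ) : ℂ))
      (((ψ c : ℂˣ) : ℂ) * ((∑' I, zc B cl c s I : ℝ) : ℂ)) := fun c =>
    (Complex.hasSum_ofReal.2 (hC₂ c s hs hs2).1.hasSum).mul_left _
  have htot : ∑' I, lt B f s I = ∑ c : G, ((ψ c : ℂˣ) : ℂ) * ((∑' I, zc B cl c s I : ℝ) : ℂ) := by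
    have h1 := hasSum_sum (s := Finset.univ) fun c (_ : c ∈ Finset.univ) => hs' c
    simp only [hterm]
    exact h1.tsum_eq
  have hsub : ∑ c : G, ((ψ c : ℂˣ) : ℂ) * ((∑' I, zc B cl c s I : ℝ) : ℂ) =
      ∑ c : G, ((ψ c : ℂˣ) : ℂ) * (((∑' I, zc B cl c s I) - J s : ℝ) : ℂ) := by
    have h1 : ∑ c : G, ((ψ c : ℂˣ) : ℂ) * (((∑' I, zc B cl c s I) - J s : ℝ) : ℂ) =
        ∑ c : G, ((ψ c : ℂˣ) : ℂ) * ((∑' I, zc B cl c s I : ℝ) : ℂ) -
          (∑ c : G, ((ψ c : ℂˣ) : ℂ)) * ((J s : ℝ) : ℂ) := by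
      rw [Finset.sum_mul, ← Finset.sum_sub_distrib]
      refine Finset.sum_congr rfl fun c _ => ?_
      rw [Complex.ofReal_sub, mul_sub]
    rw [h1, sum_char ψ hg, zero_mul, sub_zero]
  rw [htot, hsub]
  refine (norm_sum_le _ _).trans ?_
  have hb : ∀ c : G, ‖((ψ c : ℂˣ) : ℂ) * (((∑' I, zc B cl c s I) - J s : ℝ) : ℂ)‖ ≤ C₂ := by
    intro c
    rw [norm_mul, char_pow ψ c, one_mul, Complex.norm_real, Real.norm_eq_abs]
    exact (hC₂ c s hs hs2).2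
  have := Finset.sum_le_card_nsmul Finset.univ _ _ fun c _ => hb c
  rw [nsmul_eq_mul] at this
  have h2 : (Finset.univ : Finset G).card = Fintype.card G := rfl
  rw [h2] at this
  linarith

end H80

/-- LBD -/
theorem st_LBD (hRCG : ST_RCG) (hRDU : ST_RDU) (hPZC : ST_PZC) (hEUL : ST_EUL) (hEV : ST_EV) :
    ST_LBD := by
  intro F _ _ B N f hf hf1
  rcases Nat.eq_zero_or_pos N with hN | hN
  · subst hN
    exact H80.lbd_pos hRCG hRDU hPZC hEUL hEV B 1 one_pos f (H80.isRay_one hf) hf1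
  · exact H80.lbd_pos hRCG hRDU hPZC hEUL hEV B N hN f hf hf1

end REC
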